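import Pool.Agent.Lib.MP_a78abf_an.EP.Word

/-! Comparison of costs. -/

namespace Pool.Agent.Lib.MP_a78abf_an.EP

variable {a a₁ a₂ b v v₁ v₂ : ℝ}

/-- same parameters, two words -/
def QT (a b v₁ v₂ : ℝ) (w₁ w₂ : List Bool) (D : ℕ) : Prop :=
  cst a b v₂ true w₂ ≤ cst a b v₁ true w₁ + D ∧ cst a b v₂ false w₂ ≤ cst a b v₁ false w₁ + D ∧
    cst a b v₂ false w₂ ≤ cst a b v₁ true w₁ + D + 1

theorem QT.step (ha : a ≤ -1) (hab : -(a * b) ≤ 1) (h₁ : 0 ≤ v₁) (h₂ : 0 ≤ v₂) {w₁ w₂ : List Bool}
    {D : ℕ} (hv : val v₂ w₂ ≤ val v₁ w₁) (h : QT a b v₁ v₂ w₁ w₂ D) (p : Bool) :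
    QT a b v₁ v₂ (p :: w₁) (p :: w₂) D := by
  obtain ⟨q1, q2, q3⟩ := h
  have hle := val_cons_le h₂ hv p
  cases p
  · have i1 : val v₁ (false :: w₁) < b → val v₂ (false :: w₂) < b := hle.trans_lt
    have i2 : 0 < 1 + a * val v₁ (false :: w₁) → 0 < 1 + a * val v₂ (false :: w₂) := fun h => by
      nlinarith
    have i3 : val v₁ (false :: w₁) < b → 0 < 1 + a * val v₂ (false :: w₂) := fun h => by
      have := i1 h
      nlinarith
    simp only [QT, cst_tf, cst_ff]
    refine ⟨?_, ?_, ?_⟩ <;> split_ifs with c1 c2 c2 <;> first | omega | tauto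
  · simp only [QT, cst_tt, cst_ft, no_B ha h₁, no_B ha h₂, if_false]
    omega

theorem cst_tail (ha : a ≤ -1) (hab : -(a * b) ≤ 1) (hv : 0 ≤ v) (s : Bool) (w : List Bool) :
    cst a b 0 s w ≤ cst a b v s w := by
  have h : QT a b v 0 w w 0 := by
    induction w with
    | nil => simp [QT, cst_nil]
    | cons p w ih => exact ih.step ha hab hv le_rfl (val_mono le_rfl hv w) p
  cases s
  · exact h.2.1
  · exact h.1

/-- forget the marks -/
def fg : List (Option Bool) → List Bool
  | [] => []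
  | some p :: x => p :: fg x
  | none :: x => true :: fg x

/-- insert the block `ν` at the marks -/
def ins (ν : List Bool) : List (Option Bool) → List Bool
  | [] => []
  | some p :: x => p :: ins ν x
  | none :: x => ν ++ ins ν x

/-- number of marks -/
def stars : List (Option Bool) → ℕ
  | [] => 0
  | some _ :: x => stars x
  | none :: x => stars x + 1

theorem qt_ins (ha : a ≤ -1) (hab : -(a * b) ≤ 1) (μ : List Bool) (x : List (Option Bool)) :
    val 0 (ins (false :: μ ++ [true]) x) ≤ val 0 (fg x) ∧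
      QT a b 0 0 (fg x) (ins (false :: μ ++ [true]) x) ((4 * μ.length + 5) * stars x) := by
  induction x with
  | nil => simp [QT, cst_nil, fg, ins]
  | cons o x ih =>
    cases o with
    | some p => exact ⟨val_cons_le le_rfl ih.1 p, ih.2.step ha hab le_rfl le_rfl ih.1 p⟩
    | none =>
      refine ⟨(val_false le_rfl _).le.trans (val_true le_rfl _), ?_⟩
      have q1 := ih.2.1
      have h1 : ∀ s, cst a b 0 s (ins (false :: μ ++ [true]) (none :: x)) ≤
          4 * μ.length + 6 + cst a b 0 true (ins (false :: μ ++ [true]) x) := by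
        intro s
        obtain ⟨s', h⟩ := cst_append (a := a) (b := b) (v := 0)
          (true :: ins (false :: μ ++ [true]) x) (false :: μ) s
        rw [ins, List.append_assoc, List.singleton_append]
        refine h.trans ?_
        cases s'
        · rw [cst_ft, if_neg (no_B ha le_rfl _), List.length_cons]; omega
        · rw [cst_tt, List.length_cons]; omega
      have h2 := h1 true
      have h3 := h1 false
      simp only [QT, fg, stars, cst_tt, cst_ft, no_B ha le_rfl, if_false, mul_add, mul_one]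
      omega

theorem cst_ins (ha : a ≤ -1) (hab : -(a * b) ≤ 1) (μ : List Bool) (x : List (Option Bool))
    (s : Bool) : cst a b 0 s (ins (false :: μ ++ [true]) x) ≤
      cst a b 0 s (fg x) + (4 * μ.length + 5) * stars x := by
  cases s
  · exact (qt_ins ha hab μ x).2.2.1
  · exact (qt_ins ha hab μ x).2.1

/-- two parameters, same word; both on the negative side -/
def QN (a₁ a₂ b : ℝ) (w : List Bool) (g : ℕ) : Prop :=
  cst a₂ b 0 false w + 2 * g ≤ cst a₁ b 0 false w + 1

/-- two parameters, same word -/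
def QG (a₁ a₂ b : ℝ) (w : List Bool) (g : ℕ) : Prop :=
  cst a₂ b 0 true w + 2 * g ≤ cst a₁ b 0 true w + 1 ∧ QN a₁ a₂ b w g ∧
    cst a₂ b 0 false w + 2 * g ≤ cst a₁ b 0 true w + 2 ∧
    (val 0 w < 1 → cst a₂ b 0 false w + 2 * g ≤ cst a₁ b 0 true w)

theorem next_lt (ha : a ≤ -1 / 2) {w : List Bool} (h : 0 < 1 + a * val 0 (true :: w)) :
    val 0 w < 1 := by
  have := val_nonneg (le_refl 0) w
  rw [val] at h
  nlinarith

section

variable (h₁ : a₁ ≤ -1) (h₂ : -1 ≤ a₂) (h₃ : a₂ ≤ -1 / 2)
include h₁ h₂ h₃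

theorem QG.step {w : List Bool} {g : ℕ} (h : QG a₁ a₂ b w g) (p : Bool) :
    QG a₁ a₂ b (p :: w) g := by
  obtain ⟨q1, q2, q3, q4⟩ := h
  rw [QN] at q2
  cases p
  · simp only [QG, QN, cst_tf, cst_ff, no_C h₂ le_rfl, if_true]
    refine ⟨?_, ?_, ?_, fun _ => ?_⟩ <;> split_ifs <;> omega
  · have i1 := fun h => q4 (next_lt h₃ (w := w) h)
    simp only [QG, QN, cst_tt, cst_ft, no_B h₁ le_rfl, if_false]
    refine ⟨by omega, ?_, ?_, fun h => absurd h (not_lt.2 (val_true le_rfl w))⟩ <;>
      split_ifs with c <;> first | omega | (have := i1 c; omega)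

theorem QG.append {w : List Bool} {g : ℕ} (h : QG a₁ a₂ b w g) : ∀ z, QG a₁ a₂ b (z ++ w) g
  | [] => h
  | p :: z => (QG.append h z).step h₁ h₂ h₃ p

theorem qg_zero (w : List Bool) : QG a₁ a₂ b w 0 := by
  have h : QG a₁ a₂ b [] 0 := by simp [QG, QN, cst_nil]
  simpa using h.append h₁ h₂ h₃ w

end

/-- on the window `(α, β)` two steps are gained -/
def Gain (a₁ a₂ b α β : ℝ) : Prop :=
  ∀ (p p' : Bool) (w : List Bool) (g : ℕ), α < val 0 (p :: p' :: w) → val 0 (p :: p' :: w) < β →
    QG a₁ a₂ b w g → QN a₁ a₂ b (p :: p' :: w) (g + 1)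

theorem gain_right (hb0 : 0 ≤ b) (h₂ : -1 ≤ a₂) {β : ℝ} (hβ : β ≤ 3 / 2) (hβ' : 0 ≤ 1 + a₂ * β)
    (h₃ : a₂ < 0) : Gain (-1) a₂ b (1 + b) β := by
  intro p p' w g i1 i2 q
  cases p
  · have := val_false (le_refl 0) (p' :: w)
    linarith
  have i3 : 0 < 1 + a₂ * val 0 (true :: p' :: w) := by nlinarith
  rw [val] at i1 i2
  cases p'
  swap
  · have := val_true (le_refl 0) w
    linarith
  have i4 : val 0 w < 1 := by
    have h0 := val_nonneg (le_refl 0) w
    have h1 : val 0 w / (1 + val 0 w) < 1 / 2 := by rw [val] at i2; linarith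
    rw [div_lt_div_iff₀ (by positivity) (by positivity)] at h1
    linarith
  have q4 := q.2.2.2 i4
  have i5 : ¬ val 0 (false :: w) < b := by linarith
  rw [QN, cst_ft, if_pos i3, cst_ff, if_pos (no_C h₂ le_rfl _), cst_ft,
    if_neg (no_B le_rfl le_rfl _), cst_tf, if_neg i5]
  omega

theorem gain_left (h₁ : a₁ ≤ -1) {α β : ℝ} (hα : 1 + a₁ * α ≤ 0) (hβ : β ≤ 1) :
    Gain a₁ (-1) b α β := by
  intro p p' w g i1 i2 q
  cases p
  swap
  · have := val_true (le_refl 0) (p' :: w)
    linarith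
  have q3 := (q.step h₁ le_rfl (by norm_num) p').2.2.1
  have i3 : ¬ 0 < 1 + a₁ * val 0 (false :: p' :: w) := by nlinarith
  rw [QN, cst_ff, if_pos (no_C le_rfl le_rfl _), cst_ff, if_neg i3]
  omega

theorem val_rep_le (j : ℕ) (y : List Bool) :
    val 0 (List.replicate (j + 1) false ++ y) ≤ val 0 y / (1 + val 0 y) := by
  have h := val_nonneg (le_refl 0) y
  rw [val_append, val_rep h]
  refine div_le_div_of_nonneg_left h (by positivity) ?_
  push_cast
  nlinarith [mul_nonneg (Nat.cast_nonneg (α := ℝ) j) h]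

theorem qn_rep (h₁ : a₁ ≤ 0) (h₂ : -1 ≤ a₂) {y : List Bool} {g : ℕ}
    (hy : 0 < 1 + a₁ * (val 0 y / (1 + val 0 y))) (h : QN a₁ a₂ b y g) :
    ∀ j, QN a₁ a₂ b (List.replicate j false ++ y) g
  | 0 => h
  | j + 1 => by
    have q := qn_rep h₁ h₂ hy h j
    have i1 := val_rep_le j y
    rw [List.replicate_succ, List.cons_append] at i1 ⊢
    have i2 : 0 < 1 + a₁ * val 0 (false :: (List.replicate j false ++ y)) := by nlinarith
    rw [QN] at q ⊢
    rw [cst_ff, if_pos (no_C h₂ le_rfl _), cst_ff, if_pos i2]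
    omega

theorem qg_sync (h₁ : a₁ ≤ 0) (h₂ : -1 ≤ a₂) {y : List Bool} {g K : ℕ} (hb : 0 < b)
    (hK : 1 ≤ ((K + 1 : ℕ) : ℝ) * b)
    (hy : 0 < 1 + a₁ * (val 0 y / (1 + val 0 y))) (h : QN a₁ a₂ b y g) :
    QG a₁ a₂ b (List.replicate (K + 1) false ++ y) g := by
  have q1 := qn_rep h₁ h₂ hy h K
  have q2 := qn_rep h₁ h₂ hy h (K + 1)
  have i1 : val 0 (List.replicate (K + 1) false ++ y) < b := by
    rw [val_append]
    exact val_rep_lt (val_nonneg le_rfl y) hb hK
  rw [List.replicate_succ, List.cons_append] at i1 q2 ⊢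
  refine ⟨?_, q2, ?_, fun _ => ?_⟩ <;> rw [QN] at q1 <;>
    simp only [cst_tf, cst_ff, i1, no_C h₂ le_rfl, if_true] <;> omega

open Classical in
/-- number of occurrences of a block -/
noncomputable def occ (ν : List Bool) : List Bool → ℕ
  | [] => 0
  | p :: w => occ ν w + if ν <+: p :: w then 1 else 0

theorem occ_append (ν w : List Bool) :
    ∀ z : List Bool, occ ν w ≤ occ ν (z ++ w) ∧ occ ν (z ++ w) ≤ z.length + occ ν w
  | [] => by simp
  | p :: z => by
    have := occ_append ν w z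
    rw [List.cons_append, occ, List.length_cons]
    split_ifs <;> omega

/-- a block that gains two steps at each occurrence -/
theorem exists_marker (h₁ : a₁ ≤ -1) (h₂ : -1 ≤ a₂) (h₃ : a₂ ≤ -1 / 2) (hb : 0 < b) {α β : ℝ}
    (h0 : 0 ≤ α) (hαβ : α < β) (hG : Gain a₁ a₂ b α β)
    (hS : ∀ u, α < u → u < β → 0 < 1 + a₁ * (u / (1 + u))) :
    ∃ μ : List Bool, ∀ w, ∃ g, occ (false :: μ ++ [true]) w ≤ (μ.length + 2) * g ∧
      ∀ s, cst a₂ b 0 s w + 2 * g ≤ cst a₁ b 0 s w + 1 := by
  obtain ⟨w₀, hw₀⟩ := exists_cyl h0 hαβ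
  obtain ⟨K, hK⟩ := exists_nat_ge (1 / b)
  rw [div_le_iff₀ hb] at hK
  refine ⟨List.replicate K false ++ (w₀ ++ [true]), ?_⟩
  set μ := List.replicate K false ++ (w₀ ++ [true]) with hμ
  have key : ∀ n (w : List Bool), w.length ≤ n →
      ∃ g, occ (false :: μ ++ [true]) w ≤ (μ.length + 2) * g ∧ QG a₁ a₂ b w g := by
    intro n
    induction n with
    | zero =>
      intro w hw
      rw [List.eq_nil_of_length_eq_zero (Nat.le_zero.1 hw)]
      exact ⟨0, by simp [occ], qg_zero h₁ h₂ h₃ _⟩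
    | succ n ih =>
      intro w hw
      by_cases hp : false :: μ ++ [true] <+: w
      · obtain ⟨r, rfl⟩ := hp
        obtain ⟨g, g1, g2⟩ := ih r (by
          simp only [List.length_append, List.length_cons] at hw; omega)
        refine ⟨g + 1, ?_, ?_⟩
        · have := (occ_append (false :: μ ++ [true]) r (false :: μ ++ [true])).2
          simp only [List.length_append, List.length_cons, List.length_nil] at this
          rw [mul_add]
          omega
        · have e : false :: μ ++ [true] ++ r =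
              List.replicate (K + 1) false ++ (w₀ ++ [true, true] ++ r) := by
            simp [hμ, List.replicate_succ]
          have i1 : α < val 0 (w₀ ++ [true, true] ++ r) ∧ val 0 (w₀ ++ [true, true] ++ r) < β := by
            rw [List.append_assoc, val_append]
            exact hw₀ _ (val_nonneg le_rfl _)
          obtain ⟨p, p', z, hz⟩ : ∃ p p' z, w₀ ++ [true, true] = p :: p' :: z := by
            match w₀ with
            | [] => exact ⟨_, _, _, rfl⟩
            | [_] => exact ⟨_, _, _, rfl⟩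
            | _ :: _ :: _ => exact ⟨_, _, _, rfl⟩
          rw [e]
          refine qg_sync (by linarith) h₂ hb (by push_cast; linarith) (hS _ i1.1 i1.2) ?_
          rw [hz] at i1 ⊢
          exact hG p p' (z ++ r) g i1.1 i1.2 (g2.append h₁ h₂ h₃ z)
      · cases w with
        | nil => exact ⟨0, by simp [occ], qg_zero h₁ h₂ h₃ _⟩
        | cons p w =>
          obtain ⟨g, g1, g2⟩ := ih w (by simpa using hw)
          exact ⟨g, by rw [occ, if_neg hp]; exact g1, g2.step h₁ h₂ h₃ p⟩
  intro w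
  obtain ⟨g, g1, g2⟩ := key _ w le_rfl
  refine ⟨g, g1, fun s => ?_⟩
  cases s
  · exact g2.2.1
  · exact g2.1

theorem cst_cmp (h₁ : a₁ ≤ -1) (h₂ : -1 ≤ a₂) (h₃ : a₂ ≤ -1 / 2) (s : Bool) (w : List Bool) :
    cst a₂ b 0 s w ≤ cst a₁ b 0 s w + 1 := by
  have h := qg_zero (b := b) h₁ h₂ h₃ w
  cases s
  · exact h.2.1
  · exact h.1

/-- the case `b = 1 / 2` -/
theorem cst_half (ha : -1 ≤ a) (hv : 0 ≤ v) (w : List Bool) :
    (∀ s, cst (-1) (1 / 2) 0 s w ≤ cst a (1 / 2) v s w + 1) ∧
    (∀ s, cst (-1) (1 / 2) 0 s w ≤ cst a (1 / 2) v (!s) w + 2) ∧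
    (val 0 w < 1 → cst (-1) (1 / 2) 0 false w ≤ cst a (1 / 2) v true w) ∧
    (1 ≤ val 0 w → cst (-1) (1 / 2) 0 true w ≤ cst a (1 / 2) v false w) := by
  induction w with
  | nil => simp [cst_nil]
  | cons p w ih =>
    obtain ⟨q1, q2, -, q4⟩ := ih
    have q1t := q1 true
    have q1f := q1 false
    have q2t := q2 true
    have q2f := q2 false
    simp only [Bool.not_true, Bool.not_false] at q2t q2f
    cases p
    · have i1 : ¬ val 0 (false :: w) < 1 / 2 → cst (-1) (1 / 2) 0 true w ≤
          cst a (1 / 2) v false w := fun h => q4 (by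
        have h0 := val_nonneg (le_refl 0) w
        rw [val, not_lt, div_le_div_iff₀ (by positivity) (by positivity)] at h
        linarith)
      simp only [Bool.forall_bool, Bool.not_true, Bool.not_false, cst_tf, cst_ff, no_C ha hv,
        no_C le_rfl le_rfl, if_true]
      refine ⟨⟨by omega, ?_⟩, ⟨?_, ?_⟩, fun _ => ?_,
        fun h => absurd h (not_le.2 (val_false le_rfl w))⟩ <;>
        split_ifs with c1 c2 c2 <;> first | omega | (have := i1 c1; omega)
    · simp only [Bool.forall_bool, Bool.not_true, Bool.not_false, cst_tt, cst_ft,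
        no_B le_rfl le_rfl, if_false]
      refine ⟨⟨?_, by omega⟩, ⟨by omega, ?_⟩,
        fun h => absurd h (not_lt.2 (val_true le_rfl w)), fun _ => ?_⟩ <;> split_ifs <;> omega

/-- length of the first run -/
def run : List Bool → ℕ
  | false :: w => run w + 1
  | _ => 0

theorem run_mul : ∀ w : List Bool, run w * val 0 w ≤ 1
  | [] => by simp [run]
  | true :: w => by simp [run]
  | false :: w => by
    have h0 := val_nonneg (le_refl 0) w
    have h1 := run_mul w
    rw [run, val, ← mul_div_assoc, div_le_one (by positivity)]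
    push_cast
    linarith

theorem cst_zero_pos (hv : 0 ≤ v) : ∀ w, cst a 0 0 true w = cst (-1) 0 v true w
  | [] => by rw [cst_nil, cst_nil]
  | true :: w => by rw [cst_tt, cst_tt, cst_zero_pos hv w]
  | false :: w => by
    rw [cst_tf, cst_tf, if_neg (not_lt.2 (val_nonneg le_rfl _)), if_neg (not_lt.2 (val_nonneg hv _)),
      cst_zero_pos hv w]

theorem cst_zero_run (hv : 0 ≤ v) :
    ∀ w, cst (-1) 0 v true w ≤ cst (-1) 0 v false w + 2 * run w
  | [] => by simp [cst_nil]
  | true :: w => by rw [cst_tt, cst_ft, if_neg (no_B le_rfl hv _)]; omega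
  | false :: w => by
    have := cst_zero_run hv w
    rw [cst_tf, if_neg (not_lt.2 (val_nonneg hv _)), cst_ff, if_pos (no_C le_rfl hv _), run]
    omega

/-- the case `b = 0` -/
theorem cst_zero (ha : a ≤ -1) {K : ℕ} (hK : -a ≤ K) (hv : 0 ≤ v) :
    ∀ (w : List Bool) (s : Bool), cst a 0 0 s w ≤ cst (-1) 0 v s w + (2 * K + 3)
  | w, true => by rw [cst_zero_pos hv]; omega
  | [], false => by simp [cst_nil]
  | true :: w, false => by
    rw [cst_ft, cst_ft, if_neg (no_B ha le_rfl _), if_neg (no_B le_rfl hv _), cst_zero_pos hv]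
    omega
  | false :: w, false => by
    have q1 := cst_zero ha hK hv w false
    have q2 := cst_zero_run hv w
    rw [cst_ff, cst_ff, if_pos (no_C le_rfl hv _)]
    split_ifs with c
    · omega
    · have i1 := run_mul (false :: w)
      have i2 := val_nonneg (le_refl 0) (false :: w)
      have i3 : (run (false :: w) : ℝ) ≤ K := by
        by_contra hc
        rw [not_le] at hc
        have i4 : 1 ≤ K * val 0 (false :: w) := by nlinarith
        have i5 : 0 < val 0 (false :: w) := by
          refine i2.lt_of_ne fun e => ?_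
          rw [← e] at i4
          linarith
        nlinarith
      have i6 : run w + 1 ≤ K := by exact_mod_cast i3
      rw [cst_zero_pos hv]
      omega

end Pool.Agent.Lib.MP_a78abf_an.EP
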