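import Pool.Agent.Lib.MP_a78abf_an.EP.Cmp

/-! Sums over words. -/

open scoped ENNReal NNReal

namespace Pool.Agent.Lib.MP_a78abf_an.EP

theorem tsum_list {α : Type} (F : List α → ℝ≥0∞) :
    ∑' l, F l = F [] + ∑' a, ∑' l, F (a :: l) := by
  classical
  rw [ENNReal.tsum_eq_add_tsum_ite ([] : List α), ← ENNReal.tsum_prod]
  congr 1
  have hi : Function.Injective (fun p : α × List α => p.1 :: p.2) := by
    rintro ⟨a, l⟩ ⟨a', l'⟩ h
    simpa using h
  rw [← hi.tsum_eq]
  · simp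
  · intro l hl
    cases l with
    | nil => simp at hl
    | cons a l => exact ⟨(a, l), rfl⟩

theorem tsum_fib {α β : Type} [DecidableEq β] (φ : α → β) (F : α → ℝ≥0∞) :
    ∑' x, F x = ∑' y, ∑' x, if φ x = y then F x else 0 := by
  rw [ENNReal.tsum_comm]
  refine tsum_congr fun x => ?_
  rw [tsum_eq_single (φ x) (fun y hy => if_neg (Ne.symm hy)), if_pos rfl]

theorem tsum_bl (F : List Bool → ℝ≥0∞) :
    ∑' l, F l = F [] + (∑' l, F (true :: l) + ∑' l, F (false :: l)) := by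
  rw [tsum_list, tsum_fintype, Fintype.sum_bool]

theorem tsum_ol (F : List (Option Bool) → ℝ≥0∞) : ∑' l, F l =
    F [] + (∑' l, F (none :: l) + (∑' l, F (some true :: l) + ∑' l, F (some false :: l))) := by
  rw [tsum_list, tsum_fintype, Fintype.sum_option, Fintype.sum_bool]

theorem fib_fg (z : ℝ≥0∞) : ∀ w : List Bool,
    (1 + z) ^ w.count true ≤ ∑' x, if fg x = w then z ^ stars x else 0
  | [] => by
    rw [tsum_ol]
    simp [fg, stars]
  | true :: w => by
    have h := fib_fg z w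
    have e : ∀ x, (if fg x = w then z ^ (stars x + 1) else 0) =
        (if fg x = w then z ^ stars x else 0) * z := fun x => by
      split_ifs <;> simp [pow_succ]
    rw [tsum_ol]
    simp only [fg, stars, List.cons.injEq, true_and, e, ENNReal.tsum_mul_right,
      List.count_cons_self]
    refine le_add_left ?_
    rw [pow_succ, mul_add, mul_one, add_comm]
    exact add_le_add (mul_le_mul_left h z) (le_add_right h)
  | false :: w => by
    have h := fib_fg z w
    rw [tsum_ol]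
    simp only [fg, stars, List.cons.injEq, true_and]
    refine le_add_left (le_add_left (le_add_left ?_))
    simpa using h

theorem fib_ins (n : Bool) (ν : List Bool) (z : ℝ≥0∞) : ∀ (k : ℕ) (w : List Bool), w.length ≤ k →
    (∑' x, if ins (n :: ν) x = w then z ^ stars x else 0) ≤ (1 + z) ^ occ (n :: ν) w := by
  have h0 : (∑' x, if ins (n :: ν) x = [] then z ^ stars x else 0) ≤ (1 + z) ^ occ (n :: ν) [] := by
    rw [tsum_ol]
    simp [ins, stars, occ]
  intro k
  induction k with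
  | zero =>
    intro w hw
    rw [List.eq_nil_of_length_eq_zero (Nat.le_zero.1 hw)]
    exact h0
  | succ k ih =>
    intro w hw
    cases w with
    | nil => exact h0
    | cons p w =>
      have hw' : w.length ≤ k := by simpa using hw
      have h1 := ih w hw'
      have h2 : (∑' x, if ins (n :: ν) (some true :: x) = p :: w then z ^ stars (some true :: x)
          else 0) + (∑' x, if ins (n :: ν) (some false :: x) = p :: w then
          z ^ stars (some false :: x) else 0) ≤ (1 + z) ^ occ (n :: ν) w := by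
        cases p <;> simpa [ins, stars] using h1
      rw [tsum_ol, ins, if_neg (List.cons_ne_nil p w).symm, zero_add, occ]
      split_ifs with c
      · obtain ⟨r, hr⟩ := c
        have hr' : ν ++ r = w := (List.cons.inj hr).2
        have h3 := ih r (by rw [← hr', List.length_append] at hw'; omega)
        have e : ∀ x, (if ins (n :: ν) (none :: x) = p :: w then z ^ stars (none :: x) else 0) =
            (if ins (n :: ν) x = r then z ^ stars x else 0) * z := fun x => by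
          rw [ins, stars, ← hr]
          simp only [List.append_cancel_left_eq]
          split_ifs <;> simp [pow_succ]
        have h4 : (1 + z) ^ occ (n :: ν) r ≤ (1 + z) ^ occ (n :: ν) w :=
          pow_le_pow_right₀ le_self_add (hr' ▸ (occ_append (n :: ν) r ν).1)
        rw [tsum_congr e, ENNReal.tsum_mul_right, pow_succ, mul_add, mul_one, add_comm]
        exact add_le_add h2 (mul_le_mul_left (h3.trans h4) z)
      · have e : ∀ x, (if ins (n :: ν) (none :: x) = p :: w then z ^ stars (none :: x) else 0) =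
            0 := fun x => if_neg fun h => c ⟨_, h⟩
        rw [tsum_congr e, tsum_zero, zero_add, add_zero]
        exact h2

theorem tsum_len (q r : ℝ≥0∞) : ∀ n : ℕ,
    (∑' w : List Bool, if w.length = n then q ^ w.length * r ^ w.count true else 0) =
      (q * (1 + r)) ^ n
  | 0 => by
    rw [tsum_bl]
    simp
  | n + 1 => by
    have h := tsum_len q r n
    have e1 : ∀ w : List Bool, (if (true :: w).length = n + 1 then
        q ^ (true :: w).length * r ^ (true :: w).count true else 0) =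
        (if w.length = n then q ^ w.length * r ^ w.count true else 0) * (q * r) := fun w => by
      simp only [List.length_cons, add_left_inj, List.count_cons_self]
      split_ifs
      · ring
      · simp
    have e2 : ∀ w : List Bool, (if (false :: w).length = n + 1 then
        q ^ (false :: w).length * r ^ (false :: w).count true else 0) =
        (if w.length = n then q ^ w.length * r ^ w.count true else 0) * q := fun w => by
      have : (false :: w).count true = w.count true := by simp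
      simp only [List.length_cons, add_left_inj, this]
      split_ifs
      · ring
      · simp
    rw [tsum_bl, tsum_congr e1, tsum_congr e2, ENNReal.tsum_mul_right, ENNReal.tsum_mul_right, h,
      if_neg (by simp)]
    ring

theorem tsum_wt (q r : ℝ≥0∞) :
    ∑' w : List Bool, q ^ w.length * r ^ w.count true = (1 - q * (1 + r))⁻¹ := by
  rw [tsum_fib List.length, tsum_congr (tsum_len q r), ENNReal.tsum_geometric]

/-- the sum diverges at `7 / 8` -/
theorem diverge {c : List Bool → ℕ} (hc : ∀ w, c w ≤ 4 * w.length) :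
    ∑' w, (((7 / 8 : ℝ≥0) : ℝ≥0∞)) ^ c w = ∞ := by
  have h := tsum_wt ((((7 / 8) ^ 4 : ℝ≥0) : ℝ≥0∞)) 1
  have h1 : (1 : ℝ≥0∞) ≤ (((7 / 8) ^ 4 : ℝ≥0) : ℝ≥0∞) * (1 + 1) := by
    have : (1 : ℝ≥0) ≤ (7 / 8) ^ 4 * (1 + 1) := by
      rw [← NNReal.coe_le_coe]; push_cast; norm_num
    exact_mod_cast this
  rw [tsub_eq_zero_of_le h1, ENNReal.inv_zero] at h
  refine top_unique (h ▸ ENNReal.tsum_le_tsum fun w => ?_)
  rw [one_pow, mul_one, ENNReal.coe_pow, ← pow_mul]
  refine pow_le_pow_right_of_le_one' ?_ (hc w)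
  have : (7 / 8 : ℝ≥0) ≤ 1 := by rw [← NNReal.coe_le_coe]; push_cast; norm_num
  exact_mod_cast this

theorem exists_root {r : ℝ≥0} (hr : 1 < r) (n : ℕ) : ∃ θ : ℝ≥0, 1 < θ ∧ θ ^ n ≤ r := by
  refine ⟨r ^ (((n + 1 : ℕ) : ℝ))⁻¹, NNReal.one_lt_rpow hr (by positivity), ?_⟩
  have h := NNReal.rpow_inv_natCast_pow r (Nat.succ_ne_zero n)
  refine le_trans (pow_le_pow_right₀ ?_ (Nat.le_succ n)) h.le
  exact (NNReal.one_lt_rpow hr (by positivity)).le

/-- weighted sum for the first cost from the plain sum for the second -/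
theorem boost {n : Bool} {ν : List Bool} {l D : ℕ} {η t : ℝ≥0} {c₁ c₂ : List Bool → ℕ}
    (ht : t ≤ 1) (hη : t ^ 2 * (1 + η) ^ l ≤ 1)
    (h1 : ∀ x, c₁ (ins (n :: ν) x) ≤ c₁ (fg x) + D * stars x)
    (h2 : ∀ w, ∃ g, occ (n :: ν) w ≤ l * g ∧ c₂ w + 2 * g ≤ c₁ w + 1) :
    (t : ℝ≥0∞) * ∑' w, (t : ℝ≥0∞) ^ c₁ w * (1 + η * t ^ D) ^ w.count true ≤
      ∑' w, (t : ℝ≥0∞) ^ c₂ w := by
  have ht' : (t : ℝ≥0∞) ≤ 1 := by exact_mod_cast ht
  have s1 : ∑' w, (t : ℝ≥0∞) ^ c₁ w * (1 + η * t ^ D) ^ w.count true ≤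
      ∑' x, (t : ℝ≥0∞) ^ c₁ (fg x) * (η * t ^ D) ^ stars x := by
    rw [tsum_fib fg]
    refine ENNReal.tsum_le_tsum fun w => (mul_le_mul_right (fib_fg _ w) _).trans ?_
    rw [← ENNReal.tsum_mul_left]
    refine ENNReal.tsum_le_tsum fun x => ?_
    split_ifs with c
    · rw [c]
    · simp
  have s2 : ∑' x, (t : ℝ≥0∞) ^ c₁ (fg x) * (η * t ^ D) ^ stars x ≤
      ∑' x, (t : ℝ≥0∞) ^ c₁ (ins (n :: ν) x) * (η : ℝ≥0∞) ^ stars x := by
    refine ENNReal.tsum_le_tsum fun x => ?_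
    rw [mul_pow, ← pow_mul, mul_comm ((η : ℝ≥0∞) ^ stars x), ← mul_assoc, ← pow_add]
    exact mul_le_mul_left (pow_le_pow_right_of_le_one' ht' (h1 x)) _
  have s3 : ∑' x, (t : ℝ≥0∞) ^ c₁ (ins (n :: ν) x) * (η : ℝ≥0∞) ^ stars x ≤
      ∑' w, (t : ℝ≥0∞) ^ c₁ w * (1 + η) ^ occ (n :: ν) w := by
    rw [tsum_fib (ins (n :: ν))]
    refine ENNReal.tsum_le_tsum fun w => le_trans ?_
      (mul_le_mul_right (fib_ins n ν η _ w le_rfl) _)
    rw [← ENNReal.tsum_mul_left]
    refine ENNReal.tsum_le_tsum fun x => ?_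
    split_ifs with c
    · rw [c]
    · simp
  refine (mul_le_mul_right (s1.trans (s2.trans s3)) _).trans ?_
  rw [← ENNReal.tsum_mul_left]
  refine ENNReal.tsum_le_tsum fun w => ?_
  obtain ⟨g, g1, g2⟩ := h2 w
  have key : t * (t ^ c₁ w * (1 + η) ^ occ (n :: ν) w) ≤ t ^ c₂ w := by
    calc t * (t ^ c₁ w * (1 + η) ^ occ (n :: ν) w)
        = t ^ (c₁ w + 1) * (1 + η) ^ occ (n :: ν) w := by ring
      _ ≤ t ^ (c₂ w + 2 * g) * (1 + η) ^ (l * g) :=
        mul_le_mul' (pow_le_pow_right_of_le_one' ht g2) (pow_le_pow_right₀ le_self_add g1)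
      _ = t ^ c₂ w * (t ^ 2 * (1 + η) ^ l) ^ g := by ring
      _ ≤ t ^ c₂ w * 1 := mul_le_mul_right (pow_le_one₀ (zero_le) hη) _
      _ = t ^ c₂ w := mul_one _
  exact_mod_cast key

theorem gap (n : Bool) (ν : List Bool) (l D : ℕ) {t₀ : ℝ≥0} (h₀ : 0 < t₀) :
    ∃ θ : ℝ≥0, 1 < θ ∧ θ * (7 / 8) ≤ 1 ∧ ∀ c₁ c₂ : List Bool → ℕ, (∀ w, w.length ≤ c₁ w) →
      (∀ x, c₁ (ins (n :: ν) x) ≤ c₁ (fg x) + D * stars x) →
      (∀ w, ∃ g, occ (n :: ν) w ≤ l * g ∧ c₂ w + 2 * g ≤ c₁ w + 1) →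
      ∀ t : ℝ≥0, t₀ ≤ t → t ≤ 7 / 8 → ∑' w, (t : ℝ≥0∞) ^ c₂ w ≠ ∞ →
        ∑' w, ((θ * t : ℝ≥0) : ℝ≥0∞) ^ c₁ w ≠ ∞ := by
  obtain ⟨κ, k1, k2⟩ := exists_root (r := 64 / 49)
    (by rw [← NNReal.coe_lt_coe]; push_cast; norm_num) l
  obtain ⟨η, rfl⟩ := exists_add_of_le k1.le
  have hη : 0 < η := by simpa using k1
  have hz : 1 < 1 + η * t₀ ^ D := lt_add_of_pos_right _ (by positivity)
  obtain ⟨M, hM⟩ := pow_unbounded_of_one_lt (16 : ℝ≥0) hz
  obtain ⟨θ, θ1, θ2⟩ := exists_root (r := 15 / 14)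
    (by rw [← NNReal.coe_lt_coe]; push_cast; norm_num) (M + 1)
  have θ3 : θ ^ (M + 1) * (7 / 8) ≤ 15 / 16 :=
    (mul_le_mul_left θ2 _).trans (by rw [← NNReal.coe_le_coe]; push_cast; norm_num)
  have q1 : (15 / 16 : ℝ≥0) ≤ 1 := by rw [← NNReal.coe_le_coe]; push_cast; norm_num
  refine ⟨θ, θ1, ?_, fun c₁ c₂ hl h1 h2 t t1 t2 hS => ?_⟩
  · refine le_trans (mul_le_mul_left ?_ _) (θ3.trans q1)
    exact le_self_pow₀ θ1.le (Nat.succ_ne_zero M)
  have t3 : t ≤ 1 := t2.trans (by rw [← NNReal.coe_le_coe]; push_cast; norm_num)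
  have t4 : t ^ 2 * (1 + η) ^ l ≤ 1 :=
    (mul_le_mul' (pow_le_pow_left' t2 2) k2).trans
      (by rw [← NNReal.coe_le_coe]; push_cast; norm_num)
  have b1 := ne_top_of_le_ne_top hS (boost t3 t4 h1 h2)
  have t0 : (t : ℝ≥0∞) ≠ 0 := by exact_mod_cast (h₀.trans_le t1).ne'
  have b2 : ∑' w, (t : ℝ≥0∞) ^ c₁ w * (1 + η * t ^ D) ^ w.count true ≠ ∞ := fun e => by
    rw [e, ENNReal.mul_top t0] at b1
    exact b1 rfl
  have b3 : ∑' w : List Bool, (((15 / 16 : ℝ≥0) : ℝ≥0∞)) ^ w.length *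
      (((1 / 16 : ℝ≥0) : ℝ≥0∞)) ^ w.count true ≠ ∞ := by
    rw [tsum_wt, Ne, ENNReal.inv_eq_top, tsub_eq_zero_iff_le, not_le]
    have : (15 / 16 : ℝ≥0) * (1 + 1 / 16) < 1 := by rw [← NNReal.coe_lt_coe]; push_cast; norm_num
    exact_mod_cast this
  refine ne_top_of_le_ne_top (ENNReal.add_ne_top.2 ⟨b2, b3⟩) ?_
  rw [← ENNReal.tsum_add]
  refine ENNReal.tsum_le_tsum fun w => ?_
  have key : (θ * t) ^ c₁ w ≤ t ^ c₁ w * (1 + η * t ^ D) ^ w.count true +
      (15 / 16) ^ w.length * (1 / 16) ^ w.count true := by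
    rcases le_total (θ ^ c₁ w) ((1 + η * t₀ ^ D) ^ w.count true) with c | c
    · refine le_add_right ?_
      rw [mul_pow, mul_comm]
      refine mul_le_mul_right (c.trans (pow_le_pow_left' ?_ _)) _
      exact add_le_add_right (mul_le_mul_right (pow_le_pow_left' t1 D) η) 1
    · refine le_add_left ?_
      have i1 : (16 : ℝ≥0) ^ w.count true ≤ (θ ^ M) ^ c₁ w := by
        refine (pow_le_pow_left' hM.le _).trans ?_
        rw [← pow_mul, mul_comm M, pow_mul, ← pow_mul θ, mul_comm M, pow_mul]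
        exact pow_le_pow_left' c M
      have i2 : (θ * t) ^ c₁ w * 16 ^ w.count true ≤ (15 / 16) ^ w.length := by
        refine (mul_le_mul_right i1 _).trans ?_
        rw [← mul_pow]
        refine le_trans (pow_le_pow_left' ?_ _) (pow_le_pow_right_of_le_one' q1 (hl w))
        refine le_trans (le_of_eq (by ring)) ((mul_le_mul_right t2 (θ ^ (M + 1))).trans θ3)
      rw [one_div, inv_pow, ← div_eq_mul_inv, le_div_iff₀ (by positivity)]
      exact i2
  exact_mod_cast key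

end Pool.Agent.Lib.MP_a78abf_an.EP
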