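import Pool.Agent.Lib.MP_a78abf_an.EP.Sim
import Pool.Agent.Lib.MP_a78abf_an.EP.Gap

/-! Lap numbers and numbers of words of given cost. -/

open Filter Topology Set
open scoped ENNReal NNReal

namespace Pool.Agent.Lib.MP_a78abf_an.EP

theorem Good_mono {c : Bool} {g : XI → XI} {J K : Set XI} (h : Good c g J) (hK : K.OrdConnected)
    (hs : K ⊆ J) : Good c g K :=
  ⟨hK, h.2.1.mono hs, fun hc => (h.2.2 hc).mono hs⟩

theorem lap_le_cut {c : Bool} {g : XI → XI} (P : Finset XI)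
    (h : ∀ J : Set XI, J.OrdConnected → (∀ x ∈ J, x ∉ P) → Good c g J) :
    (Lp c g).ncard ≤ 2 * P.card + 1 := by
  classical
  have hm : ∀ {x y : XI}, x ≤ y → P.filter (· < x) ⊆ P.filter (· < y) := fun hxy p hp => by
    rw [Finset.mem_filter] at hp ⊢
    exact ⟨hp.1, hp.2.trans_le hxy⟩
  let C : P ⊕ Fin (P.card + 1) → Set XI := Sum.elim (fun p => {p.1})
    (fun i => {x | x ∉ P ∧ (P.filter (· < x)).card = i})
  have hC : ∀ i, Good c g (C i) := by
    rintro (p | i)
    · exact good_of_subsingleton c g subsingleton_singleton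
    · refine h _ ⟨?_⟩ (fun x hx => hx.1)
      rintro u ⟨hu, hu'⟩ v ⟨hv, hv'⟩ w ⟨h1, h2⟩
      have i1 := Finset.card_le_card (hm h1)
      have i2 := Finset.card_le_card (hm h2)
      refine ⟨fun hw => ?_, by omega⟩
      have i3 : w < v := h2.lt_of_ne fun e => hv (e ▸ hw)
      have i4 := Finset.card_lt_card ((Finset.ssubset_iff_of_subset (hm h2)).2
        ⟨w, Finset.mem_filter.2 ⟨hw, i3⟩, fun hh => lt_irrefl _ (Finset.mem_filter.1 hh).2⟩)
      omega
  have hcov : ∀ x, ∃ i, x ∈ C i := fun x => by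
    by_cases hx : x ∈ P
    · exact ⟨Sum.inl ⟨x, hx⟩, rfl⟩
    · exact ⟨Sum.inr ⟨_, Nat.lt_succ_of_le (Finset.card_filter_le P (· < x))⟩, hx, rfl⟩
  have := (lap_le_cover C hC hcov).2
  rw [Nat.card_sum, Nat.card_eq_fintype_card, Nat.card_eq_fintype_card, Fintype.card_coe,
    Fintype.card_fin] at this
  omega

/-- the break points -/
def brk (a b : ℝ) : Set (OnePoint ℝ) :=
  {OnePoint.infty, (a : OnePoint ℝ), (b : OnePoint ℝ), ((0 : ℝ) : OnePoint ℝ)}

theorem brk_finite (a b : ℝ) : (brk a b).Finite := by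
  unfold brk
  exact Set.toFinite _

theorem lt_of_ne_infty {t : XI} (h : kInv t ≠ OnePoint.infty) : |(t : ℝ)| < 1 :=
  (abs_le_one t).lt_of_ne fun e => h (by rw [kInv, if_pos e])

theorem one_side {K : Set XI} (hK : K.OrdConnected) (h1 : ∀ t ∈ K, |(t : ℝ)| < 1) {y : ℝ}
    (hy : ∀ t ∈ K, kInv t ≠ (y : OnePoint ℝ)) : (∀ t ∈ K, ki t < y) ∨ (∀ t ∈ K, y < ki t) := by
  by_contra hc
  push Not at hc
  obtain ⟨⟨u, hu, hu'⟩, v, hv, hv'⟩ := hc
  have h2 := abs_kk_lt y
  refine hy ⟨kk y, abs_le.1 h2.le⟩ (hK.out hv hu ⟨?_, ?_⟩) (by rw [kInv_of_lt h2, ki_kk])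
  · have := kk_strictMono.monotone hv'
    rwa [kk_ki (h1 v hv)] at this
  · have := kk_strictMono.monotone hu'
    rwa [kk_ki (h1 u hu)] at this

theorem good_one {a b : ℝ} {F : XI → XI} (hF : IsIntervalModel a b F) {K : Set XI}
    (hK : K.OrdConnected) (h : ∀ t ∈ K, kInv t ∉ brk a b) : Good true F K := by
  have h1 : ∀ t ∈ K, |(t : ℝ)| < 1 := fun t ht =>
    lt_of_ne_infty fun e => h t ht (by rw [e]; simp [brk])
  rcases one_side hK h1 (y := a) (fun t ht e => h t ht (by rw [e]; simp [brk])) with ha | ha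
  · exact Good_mono (good_branch true hF ordConnected_Iio (m := fun x => x + 1)
      (fun x _ y _ h => by simpa using h) (by fun_prop) (fun x hx => cf_left hx)) hK
      (fun t ht => ⟨h1 t ht, ha t ht⟩)
  rcases one_side hK h1 (y := b) (fun t ht e => h t ht (by rw [e]; simp [brk])) with hb | hb
  swap
  · exact Good_mono (good_branch true hF (ordConnected_Ici.inter ordConnected_Ici)
      (m := fun x => x - 1) (fun x _ y _ h => by simpa using h) (by fun_prop)
      (fun x hx => cf_right hx.1 hx.2)) hK (fun t ht => ⟨h1 t ht, (ha t ht).le, (hb t ht).le⟩)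
  rcases one_side hK h1 (y := 0) (fun t ht e => h t ht (by rw [e]; simp [brk])) with h0 | h0
  · refine Good_mono (good_branch true hF (ordConnected_Ico.inter ordConnected_Iio)
      (m := fun x => -1 / x) ?_ (continuousOn_const.div continuousOn_id (fun x hx => ne_of_lt hx.2))
      (fun x hx => cf_mid hx.1.1 hx.1.2 (ne_of_lt hx.2))) hK
      (fun t ht => ⟨h1 t ht, ⟨(ha t ht).le, hb t ht⟩, h0 t ht⟩)
    intro x hx y hy h
    have hx0 : x < 0 := hx.2
    have hy0 : y < 0 := hy.2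
    have e1 : -1 / x = 1 / (-x) := by rw [div_neg, neg_div]
    have e2 : -1 / y = 1 / (-y) := by rw [div_neg, neg_div]
    simp only [e1, e2]
    exact one_div_lt_one_div_of_lt (by linarith) (by linarith)
  · refine Good_mono (good_branch true hF (ordConnected_Ico.inter ordConnected_Ioi)
      (m := fun x => -1 / x) ?_ (continuousOn_const.div continuousOn_id (fun x hx => ne_of_gt hx.2))
      (fun x hx => cf_mid hx.1.1 hx.1.2 (ne_of_gt hx.2))) hK
      (fun t ht => ⟨h1 t ht, ⟨(ha t ht).le, hb t ht⟩, h0 t ht⟩)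
    intro x hx y hy h
    have hx0 : 0 < x := hx.2
    simp only [neg_div]
    exact neg_lt_neg (one_div_lt_one_div_of_lt hx0 h)

theorem ord_image {g : XI → XI} {J : Set XI} (hJ : J.OrdConnected) (hg : ContinuousOn g J) :
    (g '' J).OrdConnected := by
  have h1 : IsPreconnected J := by
    rw [← Topology.IsInducing.subtypeVal.isPreconnected_image]
    refine OrdConnected.isPreconnected ⟨?_⟩
    rintro _ ⟨u, hu, rfl⟩ _ ⟨v, hv, rfl⟩ w ⟨h1, h2⟩
    exact ⟨⟨w, u.2.1.trans h1, h2.trans v.2.2⟩, hJ.out hu hv ⟨h1, h2⟩, rfl⟩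
  have h2 := ((h1.image g hg).image Subtype.val continuous_subtype_val.continuousOn).ordConnected
  refine ⟨fun u hu v hv w hw => ?_⟩
  obtain ⟨w', h3, h4⟩ := h2.out (mem_image_of_mem _ hu) (mem_image_of_mem _ hv)
    (⟨hw.1, hw.2⟩ : (w : ℝ) ∈ Icc (u : ℝ) v)
  rwa [← Subtype.ext h4]

theorem good_iter {a b : ℝ} {F : XI → XI} (hF : IsIntervalModel a b F) {J : Set XI}
    (hJ : J.OrdConnected) : ∀ n : ℕ, (∀ t ∈ J, ∀ j < n, (cfMap a b)^[j] (kInv t) ∉ brk a b) →
      Good true F^[n] J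
  | 0, _ => ⟨hJ, strictMono_id.strictMonoOn _, fun _ => continuousOn_id⟩
  | n + 1, h => by
    have h1 := good_iter hF hJ n fun t ht j hj => h t ht j (by omega)
    have h2 : Good true F (F^[n] '' J) := good_one hF (ord_image hJ (h1.2.2 rfl)) (by
      rintro _ ⟨t, ht, rfl⟩
      rw [model_iterate hF]
      exact h t ht n (by omega))
    rw [Function.iterate_succ']
    exact Good_mono (h1.comp' h2) hJ fun t ht => ⟨ht, mem_image_of_mem _ ht⟩

theorem lap_le_of_cover (c : Bool) {a b : ℝ} {F : XI → XI} (hF : IsIntervalModel a b F) {n : ℕ}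
    (T : Finset (OnePoint ℝ)) (hT : ∀ z, ∀ j < n, (cfMap a b)^[j] z ∈ brk a b → z ∈ T) :
    (Lp c F^[n]).ncard ≤ 2 * (T.card + 2) + 1 := by
  classical
  choose σ hσ using kInv_surj
  let P : Finset XI := insert ⟨-1, by norm_num⟩ (insert ⟨1, by norm_num⟩ (T.image σ))
  have hP : P.card ≤ T.card + 2 :=
    (Finset.card_insert_le _ _).trans (Nat.succ_le_succ ((Finset.card_insert_le _ _).trans
      (Nat.succ_le_succ Finset.card_image_le)))
  refine (lap_le_cut P fun J hJ hx => ?_).trans (by omega)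
  have h := good_iter hF hJ n fun t ht j hj hb => hx t ht ?_
  · exact ⟨h.1, h.2.1, fun _ => h.2.2 rfl⟩
  simp only [P, Finset.mem_insert, Finset.mem_image]
  rcases (abs_le_one t).eq_or_lt with h1 | h1
  · rcases (abs_eq (by norm_num : (0 : ℝ) ≤ 1)).1 h1 with h | h
    · exact Or.inr (Or.inl (Subtype.ext h))
    · exact Or.inl (Subtype.ext h)
  · exact Or.inr (Or.inr ⟨_, hT _ j hj hb, eq_of_kInv_eq (hσ _) h1⟩)

theorem tails_finite (a b : ℝ) :
    {v : ℝ | ∃ s, ∃ r ≤ 3, ∃ y ∈ brk a b, st s v = (cfMap a b)^[r] y}.Finite := by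
  have h1 : (⋃ r ∈ Iic 3, (cfMap a b)^[r] '' brk a b).Finite :=
    (finite_Iic 3).biUnion fun r _ => (brk_finite a b).image _
  refine (finite_iUnion fun s : Bool => h1.preimage (st_inj s).injOn).subset ?_
  rintro v ⟨s, r, hr, y, hy, e⟩
  exact mem_iUnion.2 ⟨s, mem_biUnion (t := fun r => (cfMap a b)^[r] '' brk a b) hr ⟨y, hy, e.symm⟩⟩

theorem words_finite {c : List Bool → ℕ} (hc : ∀ w, w.length ≤ c w) (m : ℕ) :
    {w | c w ≤ m}.Finite :=
  (List.finite_length_le Bool m).subset fun w hw => (hc w).trans hw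

theorem words_card {c : List Bool → ℕ} (hc : ∀ w, w.length ≤ c w) {x : ℝ≥0} (hx : x ≤ 1)
    (hS : ∑' w, (x : ℝ≥0∞) ^ c w ≠ ∞) (m : ℕ) :
    ((words_finite hc m).toFinset.card : ℝ) * (x : ℝ) ^ m ≤ (∑' w, (x : ℝ≥0∞) ^ c w).toReal := by
  have hx' : (x : ℝ≥0∞) ≤ 1 := by exact_mod_cast hx
  have h : ((words_finite hc m).toFinset.card : ℝ≥0∞) * (x : ℝ≥0∞) ^ m ≤
      ∑' w, (x : ℝ≥0∞) ^ c w := by
    refine le_trans ?_ (ENNReal.sum_le_tsum (words_finite hc m).toFinset)
    rw [← nsmul_eq_mul]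
    refine Finset.card_nsmul_le_sum _ _ _ fun w hw => ?_
    exact pow_le_pow_right_of_le_one' hx' ((words_finite hc m).mem_toFinset.1 hw)
  simpa using ENNReal.toReal_mono hS h

section

variable {a b : ℝ} (hb0 : 0 ≤ b) (hb : b ≤ 1 / 2) (hab : 1 ≤ b - a) (hab' : -(a * b) ≤ 1)
include hb0 hb hab hab'

theorem lap_upper (c : Bool) {F : XI → XI} (hF : IsIntervalModel a b F) {d : Bool → List Bool → ℕ}
    {C : ℕ} (hl : ∀ s w, w.length ≤ d s w) (hd : ∀ s w v, 0 ≤ v → d s w ≤ cst a b v s w + C)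
    {x : ℝ≥0} (h0 : 0 < x) (hx : x ≤ 1) (hS : ∀ s, ∑' w, (x : ℝ≥0∞) ^ d s w ≠ ∞) :
    ∃ K : ℝ, ∀ n : ℕ, ((Lp c F^[n]).ncard : ℝ) * (x : ℝ) ^ n ≤ K := by
  classical
  set V := (tails_finite a b).toFinset with hV
  set S : Bool → ℝ := fun s => (∑' w, (x : ℝ≥0∞) ^ d s w).toReal with hSd
  have x0 : (0 : ℝ) < x := h0
  have x1 : (x : ℝ) ≤ 1 := hx
  refine ⟨2 * (V.card * ((S true + S false) / (x : ℝ) ^ (3 + C))) + 5, fun n => ?_⟩
  let W : Bool → Finset (List Bool) := fun s => (words_finite (hl s) (n + (3 + C))).toFinset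
  let T : Finset (OnePoint ℝ) := (V ×ˢ W true).image (fun p => st true (val p.1 p.2)) ∪
    (V ×ˢ W false).image (fun p => st false (val p.1 p.2))
  have hT : ∀ z, ∀ j < n, (cfMap a b)^[j] z ∈ brk a b → z ∈ T := by
    intro z j hj hz
    obtain ⟨s, u, hu, rfl⟩ := st_surj z
    obtain ⟨w, v, hv, rfl, h1, h2⟩ := exists_word a b j s u hu
    obtain ⟨s', h3⟩ := sim hb0 hb hab hab' hv w s
    have h4 : v ∈ V := (Set.Finite.mem_toFinset _).2 ⟨s', cst a b v s w - j, by omega, _, hz, by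
      rw [← Function.iterate_add_apply, Nat.sub_add_cancel h1, h3]⟩
    have h5 : w ∈ W s := (Set.Finite.mem_toFinset _).2 (by
      have := hd s w v hv
      show d s w ≤ _
      omega)
    cases s
    · exact Finset.mem_union_right _ (Finset.mem_image.2 ⟨(v, w), Finset.mk_mem_product h4 h5, rfl⟩)
    · exact Finset.mem_union_left _ (Finset.mem_image.2 ⟨(v, w), Finset.mk_mem_product h4 h5, rfl⟩)
  have h1 := lap_le_of_cover c hF T hT
  have h2 : T.card ≤ V.card * ((W true).card + (W false).card) := by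
    refine (Finset.card_union_le _ _).trans ?_
    rw [mul_add, ← Finset.card_product, ← Finset.card_product]
    exact add_le_add Finset.card_image_le Finset.card_image_le
  have h3 : ((Lp c F^[n]).ncard : ℝ) ≤ 2 * (V.card * ((W true).card + (W false).card)) + 5 := by
    have : (Lp c F^[n]).ncard ≤ 2 * (V.card * ((W true).card + (W false).card)) + 5 := by omega
    exact_mod_cast this
  have h4 : ∀ s, ((W s).card : ℝ) * (x : ℝ) ^ (n + (3 + C)) ≤ S s := fun s =>
    words_card (hl s) hx (hS s) _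
  have h5 : (((W true).card : ℝ) + (W false).card) * (x : ℝ) ^ n ≤
      (S true + S false) / (x : ℝ) ^ (3 + C) := by
    rw [le_div_iff₀ (by positivity), mul_assoc, ← pow_add, add_mul]
    exact add_le_add (h4 true) (h4 false)
  have h6 : (x : ℝ) ^ n ≤ 1 := pow_le_one₀ x0.le x1
  have h7 := mul_le_mul_of_nonneg_left h5 (Nat.cast_nonneg (α := ℝ) V.card)
  have h8 := mul_le_mul_of_nonneg_right h3 (pow_pos x0 n).le
  nlinarith

/-- upper bound for the growth rate -/
theorem upper (c : Bool) {F : XI → XI} (hF : IsIntervalModel a b F) {h : ℝ}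
    (hu : Tendsto (fun n : ℕ => Real.log ((Lp c F^[n]).ncard : ℝ) / n) atTop (𝓝 h))
    {d : Bool → List Bool → ℕ} {C : ℕ} (hl : ∀ s w, w.length ≤ d s w)
    (hd : ∀ s w v, 0 ≤ v → d s w ≤ cst a b v s w + C)
    {x : ℝ≥0} (h0 : 0 < x) (hx : x ≤ 1) (hS : ∀ s, ∑' w, (x : ℝ≥0∞) ^ d s w ≠ ∞) :
    h ≤ -Real.log x := by
  obtain ⟨K, hK⟩ := lap_upper hb0 hb hab hab' c hF hl hd h0 hx hS
  have x0 : (0 : ℝ) < x := h0
  have h4 : Tendsto (fun n : ℕ => Real.log K / n + -Real.log x) atTop (𝓝 (0 + -Real.log x)) :=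
    (tendsto_const_div_atTop_nhds_zero_nat _).add tendsto_const_nhds
  rw [zero_add] at h4
  refine le_of_tendsto_of_tendsto hu h4 ?_
  filter_upwards [eventually_gt_atTop 0] with n hn
  have hn' : (0 : ℝ) < n := by exact_mod_cast hn
  have p1 : (0 : ℝ) < ((Lp c F^[n]).ncard : ℝ) := by
    exact_mod_cast ((model_pw c hF).iterate n).one_le
  have h5 := Real.log_le_log (by positivity) (hK n)
  rw [Real.log_mul p1.ne' (by positivity), Real.log_pow] at h5
  rw [div_le_iff₀ hn', add_mul, div_mul_cancel₀ _ hn'.ne']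
  linarith

theorem words_le_lap (c : Bool) {F : XI → XI} (hF : IsIntervalModel a b F) (s : Bool) (m : ℕ)
    (W : Finset (List Bool)) (hW : ∀ w ∈ W, cst a b 0 s w = m) :
    W.card ≤ 2 * (Lp c F^[m]).ncard := by
  classical
  have h1 : ∀ᶠ v in 𝓝[Ici 0] (0 : ℝ), ∀ w ∈ W, cst a b v s w = cst a b 0 s w :=
    (eventually_all_finset W).2 fun w _ => cst_eventually (by linarith) w s
  obtain ⟨v, hv, hv0⟩ := ((h1.filter_mono (nhdsWithin_mono _ Ioi_subset_Ici_self)).and
    self_mem_nhdsWithin).exists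
  have hv0' : 0 < v := hv0
  choose σ hσ using kInv_surj
  choose e he using fun w => sim hb0 hb hab hab' hv0'.le w s
  have pF := (model_pw c hF).iterate m
  have : Finite (Lp c F^[m]) := pF.finite
  let φ : W → Bool × Lp c F^[m] := fun w => (e w, ⟨_, pF.comp_mem (σ (st s (val v w)))⟩)
  have hφ : Function.Injective φ := by
    rintro ⟨w, hw⟩ ⟨w', hw'⟩ h
    have e1 : e w = e w' := congrArg Prod.fst h
    have e2 : comp c F^[m] (σ (st s (val v w))) = comp c F^[m] (σ (st s (val v w'))) :=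
      congrArg (fun p : Bool × Lp c F^[m] => (p.2 : Set XI)) h
    have c1 : cst a b v s w = m := (hv w hw).trans (hW w hw)
    have c2 : cst a b v s w' = m := (hv w' hw').trans (hW w' hw')
    obtain ⟨y, hy⟩ := st_real (e w) hv0'
    have k1 : kInv (F^[m] (σ (st s (val v w)))) = y := by
      rw [model_iterate hF, hσ, ← hy, ← he w, c1]
    have k2 : kInv (F^[m] (σ (st s (val v w')))) = y := by
      rw [model_iterate hF, hσ, ← hy, e1, ← he w', c2]
    have k3 := (comp_good c F^[m] _).2.1.injOn (mem_comp c _ _) (e2 ▸ mem_comp c _ _)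
      (Subtype.ext ((eq_of_kInv k1).trans (eq_of_kInv k2).symm))
    have k4 : st s (val v w) = st s (val v w') := by rw [← hσ (st s (val v w)), k3, hσ]
    exact Subtype.ext (eq_of_val hv0'.le w w' s (st_inj s k4) (c1.trans c2.symm))
  have h2 := Nat.card_le_card_of_injective φ hφ
  rwa [Nat.card_prod, Nat.card_eq_fintype_card, Nat.card_eq_fintype_card (α := Bool),
    Fintype.card_coe, Fintype.card_bool] at h2

/-- lower bound for the growth rate -/
theorem lower (c : Bool) {F : XI → XI} (hF : IsIntervalModel a b F) {h : ℝ}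
    (hu : Tendsto (fun n : ℕ => Real.log ((Lp c F^[n]).ncard : ℝ) / n) atTop (𝓝 h))
    {t : ℝ≥0} (h0 : 0 < t) (ht : Real.log t < -h) (s : Bool) :
    ∑' w, (t : ℝ≥0∞) ^ cst a b 0 s w ≠ ∞ := by
  classical
  have t0 : (0 : ℝ) < t := h0
  obtain ⟨k, k1, k2⟩ := exists_between (show h < -Real.log t by linarith)
  have r1 : Real.exp k * t < 1 := by
    rw [← Real.exp_log t0, ← Real.exp_add, Real.exp_lt_one_iff]
    linarith
  have s1 : Summable fun m : ℕ => ((Lp c F^[m]).ncard : ℝ) * (t : ℝ) ^ m := by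
    refine Summable.of_norm_bounded_eventually_nat
      (summable_geometric_of_lt_one (by positivity) r1) ?_
    filter_upwards [eventually_gt_atTop 0, hu.eventually (gt_mem_nhds k1)] with n hn h1
    have hn' : (0 : ℝ) < n := by exact_mod_cast hn
    have p1 : (0 : ℝ) < ((Lp c F^[n]).ncard : ℝ) := by
      exact_mod_cast ((model_pw c hF).iterate n).one_le
    rw [div_lt_iff₀ hn', Real.log_lt_iff_lt_exp p1, mul_comm, Real.exp_nat_mul] at h1
    rw [Real.norm_of_nonneg (by positivity), mul_pow]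
    exact mul_le_mul_of_nonneg_right h1.le (by positivity)
  have s2 : ∑' m : ℕ, ((((Lp c F^[m]).ncard : ℝ≥0) * t ^ m : ℝ≥0) : ℝ≥0∞) ≠ ∞ :=
    ENNReal.tsum_coe_ne_top_iff_summable_coe.2 (by simpa using s1)
  refine ne_top_of_le_ne_top (ENNReal.mul_ne_top ENNReal.ofNat_ne_top (a := 2) s2) ?_
  rw [tsum_fib (cst a b 0 s), ← ENNReal.tsum_mul_left]
  refine ENNReal.tsum_le_tsum fun m => ?_
  have hf := words_finite (c := cst a b 0 s) (fun w => length_le_cst w s) m
  rw [tsum_eq_sum (s := hf.toFinset.filter fun w => cst a b 0 s w = m) (fun w hw => if_neg fun e =>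
    hw (Finset.mem_filter.2 ⟨hf.mem_toFinset.2 e.le, e⟩)),
    Finset.sum_congr rfl (g := fun _ => (t : ℝ≥0∞) ^ m) (fun w hw => by
      rw [if_pos (Finset.mem_filter.1 hw).2, (Finset.mem_filter.1 hw).2]),
    Finset.sum_const, nsmul_eq_mul]
  have h3 := words_le_lap hb0 hb hab hab' c hF s m _
    (fun w hw => (Finset.mem_filter.1 hw).2 :
      ∀ w ∈ hf.toFinset.filter fun w => cst a b 0 s w = m, cst a b 0 s w = m)
  push_cast
  rw [← mul_assoc]
  exact mul_le_mul_left (by exact_mod_cast h3) _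

end

end Pool.Agent.Lib.MP_a78abf_an.EP
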