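import Pool.Agent.Lib.MP_a78abf_an.EP.Link

/-! The exact plateau. -/

open Filter Topology Set
open scoped ENNReal NNReal

namespace Pool.Agent.Lib.MP_a78abf_an.EP

theorem exists_ent (c : Bool) (a b : ℝ) : ∃ h, HasEntropy c a b h := by
  obtain ⟨G, hG⟩ := exists_model a b
  obtain ⟨k, hv⟩ := (model_pw c hG).exists_lim
  refine ⟨k, ⟨G, hG⟩, fun F hF => ⟨fun n => ((model_pw c hF).iterate n).finite, ?_⟩⟩
  obtain ⟨h, hu⟩ := (model_pw c hF).exists_lim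
  rw [← le_antisymm (lim_le c hF hG (fun _ => rfl) hu hv) (lim_le c hG hF (fun _ => rfl) hv hu)]
  exact hu

theorem ent_unique {c : Bool} {a b h k : ℝ} (H : HasEntropy c a b h) (K : HasEntropy c a b k) :
    h = k := by
  obtain ⟨F, hF⟩ := H.1
  exact tendsto_nhds_unique (H.2 F hF).2 (K.2 F hF).2

theorem ent_nonneg {c : Bool} {a b h : ℝ} (H : HasEntropy c a b h) : 0 ≤ h := by
  obtain ⟨F, hF⟩ := H.1
  exact ge_of_tendsto' (H.2 F hF).2 fun n =>
    div_nonneg (Real.log_natCast_nonneg _) (Nat.cast_nonneg _)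

theorem exists_exp (k : ℝ) : ∃ t : ℝ≥0, 0 < t ∧ Real.log t = -k :=
  ⟨⟨Real.exp (-k), (Real.exp_pos _).le⟩, Real.exp_pos _, Real.log_exp _⟩

section

variable {c : Bool} {a₁ a₂ b h₁ h₂ : ℝ} (hb0 : 0 ≤ b) (hb : b ≤ 1 / 2)
  (p₁ : 1 ≤ b - a₁) (q₁ : -(a₁ * b) ≤ 1) (p₂ : 1 ≤ b - a₂) (q₂ : -(a₂ * b) ≤ 1)
  (H₁ : HasEntropy c a₁ b h₁) (H₂ : HasEntropy c a₂ b h₂)
include hb0 hb p₁ q₁ p₂ q₂ H₁ H₂

theorem aux_le {C : ℕ} (hd : ∀ s w v, 0 ≤ v → cst a₂ b 0 s w ≤ cst a₁ b v s w + C) :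
    h₁ ≤ h₂ := by
  refine le_of_forall_gt_imp_ge_of_dense fun k hk => ?_
  obtain ⟨F, hF⟩ := H₁.1
  obtain ⟨G, hG⟩ := H₂.1
  obtain ⟨t, t0, t1⟩ := exists_exp k
  have t2 : t ≤ 1 := (Real.log_nonpos_iff t.2).1 (by
    have := ent_nonneg H₂
    show Real.log t ≤ 0
    linarith)
  have := upper hb0 hb p₁ q₁ c hF (H₁.2 F hF).2 (fun s w => length_le_cst w s) hd t0 t2
    (lower hb0 hb p₂ q₂ c hG (H₂.2 G hG).2 t0 (by linarith))
  linarith

theorem aux_ne (i₁ : a₁ ≤ -1) (i₂ : -1 ≤ a₂) (hb' : 0 < b) {α β : ℝ}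
    (h0 : 0 ≤ α) (hαβ : α < β) (hG : Gain a₁ a₂ b α β)
    (hS : ∀ u, α < u → u < β → 0 < 1 + a₁ * (u / (1 + u))) : h₁ ≠ h₂ := by
  obtain ⟨μ, hμ⟩ := exists_marker i₁ i₂ (by linarith) hb' h0 hαβ hG hS
  obtain ⟨F, hF⟩ := H₁.1
  obtain ⟨G, hG⟩ := H₂.1
  obtain ⟨t₀, u0, u1⟩ := exists_exp (h₂ + 1)
  obtain ⟨θ, θ1, θ2, θ3⟩ := gap false (μ ++ [true]) (μ.length + 2) (4 * μ.length + 5) u0
  have l1 : 0 < Real.log θ := Real.log_pos θ1
  have e0 : (0 : ℝ≥0) < 7 / 8 := by positivity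
  have l2 : -h₂ ≤ Real.log ((7 / 8 : ℝ≥0) : ℝ) := not_lt.1 fun h =>
    lower hb0 hb p₂ q₂ c hG (H₂.2 G hG).2 e0 h true (diverge fun w => cst_le w true)
  obtain ⟨t, t0, t1⟩ := exists_exp (h₂ + min 1 (Real.log θ / 2))
  have m0 : 0 < min 1 (Real.log θ / 2) := lt_min one_pos (by linarith)
  have m1 := min_le_left 1 (Real.log θ / 2)
  have m2 := min_le_right 1 (Real.log θ / 2)
  have t2 : t₀ ≤ t := (Real.log_le_log_iff u0 t0).1 (by
    show Real.log t₀ ≤ Real.log t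
    linarith)
  have t3 : t ≤ 7 / 8 := (Real.log_le_log_iff t0 e0).1 (by
    show Real.log t ≤ Real.log ((7 / 8 : ℝ≥0) : ℝ)
    linarith)
  have θ0 : 0 < θ := one_pos.trans θ1
  have key := upper hb0 hb p₁ q₁ c hF (H₁.2 F hF).2 (d := cst a₁ b 0) (C := 0)
    (fun s w => length_le_cst w s) (fun s w v hv => cst_tail i₁ q₁ hv s w) (x := θ * t)
    (mul_pos θ0 t0) ((mul_le_mul_right t3 θ).trans θ2) fun s =>
      θ3 _ (cst a₂ b 0 s) (fun w => length_le_cst w s) (fun x => cst_ins i₁ q₁ μ x s)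
        (fun w => (hμ w).imp fun g hg => ⟨hg.1, hg.2 s⟩) t t2 t3
        (lower hb0 hb p₂ q₂ c hG (H₂.2 G hG).2 t0 (by linarith) s)
  rw [NNReal.coe_mul, Real.log_mul (NNReal.coe_pos.2 θ0).ne' (NNReal.coe_pos.2 t0).ne'] at key
  intro e
  linarith

end

theorem exact_plateau (c : Bool) (a b : ℝ) (hb0 : 0 ≤ b) (hb : b ≤ 1 / 2) (hab : 1 ≤ b - a)
    (hab' : -(a * b) ≤ 1) : ∃ h h₀, HasEntropy c a b h ∧ HasEntropy c (-1) b h₀ ∧
      (h = h₀ ↔ b = 0 ∨ (-1 ≤ a ∧ (a ≤ -1 / (b + 1) ∨ b = 1 / 2))) := by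
  obtain ⟨h, H⟩ := exists_ent c a b
  obtain ⟨h₀, H₀⟩ := exists_ent c (-1) b
  have p₀ : 1 ≤ b - -1 := by linarith
  have q₀ : -(-1 * b) ≤ 1 := by linarith
  have a0 : a < 0 := by linarith
  refine ⟨h, h₀, H, H₀, fun e => ?_, ?_⟩
  · by_contra hc
    rw [not_or, not_and_or, not_or, not_le, not_le] at hc
    have hb' : 0 < b := hb0.lt_of_ne (Ne.symm hc.1)
    rcases hc.2 with h1 | ⟨h1, h2⟩
    · have i0 : 0 < -a := by linarith
      have i1 : 1 / -a < 1 := by rw [div_lt_one i0]; linarith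
      have i2 : 0 < 1 / -a := by positivity
      have i3 : a * (1 / -a) = -1 := by rw [mul_one_div, div_neg, div_self a0.ne]
      refine aux_ne hb0 hb hab hab' p₀ q₀ H H₀ h1.le le_rfl hb' i2.le
        (β := min 1 (1 / -a + (1 / -a) ^ 2)) (lt_min i1 (by nlinarith))
        (gain_left h1.le (by linarith) (min_le_left _ _)) (fun u u1 u2 => ?_) e
      have u3 := u2.trans_le (min_le_right _ _)
      have u4 : u / (1 + u) < 1 / -a := by
        rw [div_lt_iff₀ (by linarith)]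
        nlinarith
      nlinarith
    · have h3 : b < 1 / 2 := hb.lt_of_ne h2
      have i0 : 0 < -a := by linarith
      have i1 : 1 + b < 1 / -a := by
        rw [div_lt_iff₀ (by linarith)] at h1
        rw [lt_div_iff₀ i0]
        linarith
      have i3 : a * (1 / -a) = -1 := by rw [mul_one_div, div_neg, div_self a0.ne]
      have i4 : -1 ≤ a := by nlinarith
      refine aux_ne hb0 hb p₀ q₀ hab hab' H₀ H le_rfl i4 hb' (by linarith)
        (β := min (3 / 2) (1 / -a)) (lt_min (by linarith) i1)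
        (gain_right hb0 i4 (min_le_left _ _) ?_ a0) (fun u u1 _ => ?_) e.symm
      · have := min_le_right (3 / 2) (1 / -a)
        nlinarith
      · have : u / (1 + u) < 1 := by rw [div_lt_one (by linarith)]; linarith
        linarith
  · rintro (rfl | ⟨h1, h2 | rfl⟩)
    · have h1 : a ≤ -1 := by linarith
      obtain ⟨K, hK⟩ := exists_nat_ge (-a)
      exact le_antisymm
        (aux_le hb0 hb hab hab' p₀ q₀ H H₀ (C := 1) fun s w v hv =>
          (cst_cmp h1 le_rfl (by norm_num) s w).trans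
            (Nat.succ_le_succ (cst_tail h1 hab' hv s w)))
        (aux_le hb0 hb p₀ q₀ hab hab' H₀ H fun s w v hv => cst_zero h1 hK hv w s)
    · obtain ⟨k, k1, k2⟩ := plateau c hb0 (by linarith) h1 h2
      rw [ent_unique H k1, ent_unique H₀ k2]
    · exact le_antisymm
        (aux_le hb0 hb hab hab' p₀ q₀ H H₀ fun s w v hv => (cst_half h1 hv w).1 s)
        (aux_le hb0 hb p₀ q₀ hab hab' H₀ H (C := 1) fun s w v hv =>
          (cst_cmp le_rfl h1 (by linarith) s w).trans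
            (Nat.succ_le_succ (cst_tail le_rfl q₀ hv s w)))

end Pool.Agent.Lib.MP_a78abf_an.EP
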