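import Mathlib

/-! Farey words, two states and step costs. -/

open Filter Topology

namespace Pool.Agent.Lib.MP_a78abf_an.EP

/-- the number coded by a word (true: add one, false: `u / (1 + u)`) and a tail `v` -/
noncomputable def val (v : ℝ) : List Bool → ℝ
  | [] => v
  | true :: w => val v w + 1
  | false :: w => val v w / (1 + val v w)

/-- number of steps and new side when one letter is read -/
noncomputable def stp (a b : ℝ) : Bool → Bool → ℝ → ℕ × Bool
  | true, true, _ => (1, true)
  | true, false, u => if u < b then (2, false) else (3, true)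
  | false, true, u => if 0 < 1 + a * u then (3, false) else (2, true)
  | false, false, u => if 0 < 1 + a * u then (1, false) else (4, true)

/-- number of steps needed to read a word -/
noncomputable def cst (a b v : ℝ) : Bool → List Bool → ℕ
  | _, [] => 0
  | s, p :: w => (stp a b s p (val v (p :: w))).1 + cst a b v (stp a b s p (val v (p :: w))).2 w

variable {a b v : ℝ}

theorem val_nonneg (hv : 0 ≤ v) : ∀ w, 0 ≤ val v w
  | [] => hv
  | true :: w => by have := val_nonneg hv w; rw [val]; positivity
  | false :: w => by have := val_nonneg hv w; rw [val]; positivity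

theorem val_pos (hv : 0 < v) : ∀ w, 0 < val v w
  | [] => hv
  | true :: w => by have := val_pos hv w; rw [val]; positivity
  | false :: w => by have := val_pos hv w; rw [val]; positivity

theorem val_true (hv : 0 ≤ v) (w : List Bool) : 1 ≤ val v (true :: w) := by
  have := val_nonneg hv w
  rw [val]; linarith

theorem val_false (hv : 0 ≤ v) (w : List Bool) : val v (false :: w) < 1 := by
  have := val_nonneg hv w
  rw [val, div_lt_one (by positivity)]; linarith

theorem frac_le {x y : ℝ} (hx : 0 ≤ x) (h : x ≤ y) : x / (1 + x) ≤ y / (1 + y) := by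
  have hy := hx.trans h
  rw [div_le_div_iff₀ (by positivity) (by positivity)]; nlinarith

theorem val_cons_le {v' : ℝ} (hv : 0 ≤ v) {w w' : List Bool} (h : val v w ≤ val v' w') (p : Bool) :
    val v (p :: w) ≤ val v' (p :: w') := by
  cases p
  · exact frac_le (val_nonneg hv w) h
  · rw [val, val]; linarith

theorem val_mono {v' : ℝ} (hv : 0 ≤ v) (h : v ≤ v') : ∀ w, val v w ≤ val v' w
  | [] => h
  | p :: w => val_cons_le hv (val_mono hv h w) p

theorem val_append (v : ℝ) (z : List Bool) : ∀ w, val v (w ++ z) = val (val v z) w
  | [] => rfl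
  | true :: w => by rw [List.cons_append, val, val, val_append v z w]
  | false :: w => by rw [List.cons_append, val, val, val_append v z w]

theorem val_rep (hv : 0 ≤ v) : ∀ j : ℕ, val v (List.replicate j false) = v / (1 + j * v)
  | 0 => by simp [val]
  | j + 1 => by
    rw [List.replicate_succ, val, val_rep hv j]
    have : 0 < 1 + j * v := by positivity
    push_cast
    field_simp
    ring

theorem val_rep_lt (hv : 0 ≤ v) {j : ℕ} {d : ℝ} (hd : 0 < d) (hj : 1 ≤ j * d) :
    val v (List.replicate j false) < d := by
  rw [val_rep hv, div_lt_iff₀ (by positivity)]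
  nlinarith

theorem val_cont (w : List Bool) : ContinuousWithinAt (fun v => val v w) (Set.Ici 0) 0 := by
  induction w with
  | nil => exact continuousWithinAt_id
  | cons p w ih =>
    cases p
    · have := val_nonneg (le_refl 0) w
      exact ih.div (continuousWithinAt_const.add ih) (by positivity)
    · exact ih.add continuousWithinAt_const

theorem exists_val_rat : ∀ n p q : ℕ, p + q ≤ n → 0 < q → ∃ w, val 0 w = (p : ℝ) / q := by
  intro n
  induction n with
  | zero => intro p q h hq; omega
  | succ n ih =>
    intro p q h hq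
    have hq' : (0 : ℝ) < q := by exact_mod_cast hq
    rcases Nat.eq_zero_or_pos p with rfl | hp
    · exact ⟨[], by simp [val]⟩
    rcases le_or_gt q p with h1 | h1
    · obtain ⟨w, hw⟩ := ih (p - q) q (by omega) hq
      refine ⟨true :: w, ?_⟩
      rw [val, hw, Nat.cast_sub h1]
      field_simp
      ring
    · obtain ⟨w, hw⟩ := ih p (q - p) (by omega) (by omega)
      refine ⟨false :: w, ?_⟩
      have h2 : (0 : ℝ) < q - p := sub_pos.2 (by exact_mod_cast h1)
      rw [val, hw, Nat.cast_sub h1.le]
      have h3 : 1 + (p : ℝ) / (q - p) = q / (q - p) := by field_simp; ring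
      rw [h3]
      field_simp

/-- every interval contains a cylinder -/
theorem exists_cyl {α β : ℝ} (h0 : 0 ≤ α) (h : α < β) :
    ∃ w, ∀ u, 0 ≤ u → α < val u w ∧ val u w < β := by
  obtain ⟨r, hr1, hr2⟩ := exists_rat_btwn h
  have hr0 : 0 ≤ r := by exact_mod_cast h0.trans hr1.le
  obtain ⟨w, hw⟩ := exists_val_rat _ r.num.toNat r.den le_rfl r.pos
  have hw' : val 0 w = r := by
    rw [hw, Rat.cast_def]
    congr 1
    exact_mod_cast Int.toNat_of_nonneg (Rat.num_nonneg.2 hr0)
  have h1 : ∀ᶠ v in 𝓝[Set.Ici 0] (0 : ℝ), val v w < β :=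
    (val_cont w).eventually (gt_mem_nhds (show val 0 w < β from hw' ▸ hr2))
  obtain ⟨d, hd, hd'⟩ := Metric.mem_nhdsWithin_iff.1 h1
  obtain ⟨j, hj⟩ := exists_nat_ge (1 / d)
  rw [div_le_iff₀ hd] at hj
  refine ⟨w ++ List.replicate j false, fun u hu => ?_⟩
  rw [val_append]
  have h2 := val_nonneg hu (List.replicate j false)
  refine ⟨(hw' ▸ hr1).trans_le (val_mono le_rfl h2 w), hd' ⟨?_, h2⟩⟩
  rw [Metric.mem_ball, Real.dist_eq, sub_zero, abs_of_nonneg h2]
  exact val_rep_lt hu hd hj

theorem cst_nil (s : Bool) : cst a b v s [] = 0 := by rw [cst]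

theorem cst_tt (w : List Bool) : cst a b v true (true :: w) = 1 + cst a b v true w := by
  rw [cst, stp]

theorem cst_tf (w : List Bool) : cst a b v true (false :: w) =
    if val v (false :: w) < b then 2 + cst a b v false w else 3 + cst a b v true w := by
  rw [cst, stp]; split_ifs <;> rfl

theorem cst_ft (w : List Bool) : cst a b v false (true :: w) =
    if 0 < 1 + a * val v (true :: w) then 3 + cst a b v false w else 2 + cst a b v true w := by
  rw [cst, stp]; split_ifs <;> rfl

theorem cst_ff (w : List Bool) : cst a b v false (false :: w) =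
    if 0 < 1 + a * val v (false :: w) then 1 + cst a b v false w else 4 + cst a b v true w := by
  rw [cst, stp]; split_ifs <;> rfl

theorem stp_bd (s p : Bool) (u : ℝ) : 1 ≤ (stp a b s p u).1 ∧ (stp a b s p u).1 ≤ 4 := by
  cases s <;> cases p <;> rw [stp] <;> (try split_ifs) <;> simp

theorem length_le_cst : ∀ (w : List Bool) (s : Bool), w.length ≤ cst a b v s w
  | [], s => by simp
  | p :: w, s => by
    have h1 := (stp_bd (a := a) (b := b) s p (val v (p :: w))).1
    have h2 := length_le_cst w (stp a b s p (val v (p :: w))).2
    rw [cst, List.length_cons]; omega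

theorem cst_append (z : List Bool) :
    ∀ (w : List Bool) (s : Bool), ∃ s', cst a b v s (w ++ z) ≤ 4 * w.length + cst a b v s' z
  | [], s => ⟨s, by simp⟩
  | p :: w, s => by
    have h1 := (stp_bd (a := a) (b := b) s p (val v (p :: (w ++ z)))).2
    obtain ⟨s', h2⟩ := cst_append z w (stp a b s p (val v (p :: (w ++ z)))).2
    exact ⟨s', by rw [List.cons_append, cst, List.length_cons]; omega⟩

theorem cst_le (w : List Bool) (s : Bool) : cst a b v s w ≤ 4 * w.length := by
  obtain ⟨s', h⟩ := cst_append (a := a) (b := b) (v := v) [] w s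
  rwa [List.append_nil, cst_nil] at h

theorem no_B (ha : a ≤ -1) (hv : 0 ≤ v) (w : List Bool) : ¬ 0 < 1 + a * val v (true :: w) := by
  have := val_true hv w
  nlinarith

theorem no_C (ha : -1 ≤ a) (hv : 0 ≤ v) (w : List Bool) : 0 < 1 + a * val v (false :: w) := by
  have h1 := val_false hv w
  have h2 := val_nonneg hv (false :: w)
  nlinarith

/-- the cost with tail zero is the cost with a small positive tail -/
theorem cst_eventually (ha : a ≤ 0) : ∀ (w : List Bool) (s : Bool),
    ∀ᶠ v in 𝓝[Set.Ici 0] (0 : ℝ), cst a b v s w = cst a b 0 s w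
  | [], s => Eventually.of_forall fun v => by rw [cst_nil, cst_nil]
  | p :: w, s => by
    have h1 : ∀ᶠ v in 𝓝[Set.Ici 0] (0 : ℝ), (val v (p :: w) < b ↔ val 0 (p :: w) < b) := by
      by_cases h : val 0 (p :: w) < b
      · filter_upwards [(val_cont (p :: w)).eventually (gt_mem_nhds h)] with v hv
        exact iff_of_true hv h
      · filter_upwards [self_mem_nhdsWithin] with v hv
        exact iff_of_false (fun h' => h ((val_mono le_rfl hv _).trans_lt h')) h
    have h2 : ∀ᶠ v in 𝓝[Set.Ici 0] (0 : ℝ),
        (0 < 1 + a * val v (p :: w) ↔ 0 < 1 + a * val 0 (p :: w)) := by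
      by_cases h : 0 < 1 + a * val 0 (p :: w)
      · have hc : ContinuousWithinAt (fun v => 1 + a * val v (p :: w)) (Set.Ici 0) 0 :=
          continuousWithinAt_const.add (continuousWithinAt_const.mul (val_cont _))
        filter_upwards [hc.eventually (lt_mem_nhds h)] with v hv
        exact iff_of_true hv h
      · filter_upwards [self_mem_nhdsWithin] with v hv
        refine iff_of_false (fun h' => h ?_) h
        have := val_mono le_rfl hv (p :: w)
        nlinarith
    filter_upwards [h1, h2, cst_eventually ha w true, cst_eventually ha w false] with v e1 e2 e3 e4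
    cases s <;> cases p <;> simp only [cst_tt, cst_tf, cst_ft, cst_ff, e1, e2, e3, e4]

/-- a word is determined by its value and its cost -/
theorem eq_of_val (hv : 0 ≤ v) : ∀ (w w' : List Bool) (s : Bool), val v w = val v w' →
    cst a b v s w = cst a b v s w' → w = w'
  | [], w', s => fun _ h => by
    have := length_le_cst (a := a) (b := b) (v := v) w' s
    rw [← h, cst_nil] at this
    exact (List.eq_nil_of_length_eq_zero (by omega)).symm
  | p :: w, [], s => fun _ h => by
    have := length_le_cst (a := a) (b := b) (v := v) (p :: w) s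
    rw [h, cst_nil] at this
    exact List.eq_nil_of_length_eq_zero (by omega)
  | p :: w, p' :: w', s => fun h1 h2 => by
    have hp : p = p' := by
      cases p <;> cases p'
      · rfl
      · exact absurd (h1 ▸ val_false hv w) (not_lt.2 (val_true hv w'))
      · exact absurd (h1 ▸ val_true hv w) (not_le.2 (val_false hv w'))
      · rfl
    subst hp
    have h3 : val v w = val v w' := by
      have i1 := val_nonneg hv w
      have i2 := val_nonneg hv w'
      cases p
      · rw [val, val, div_eq_div_iff (by positivity) (by positivity)] at h1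
        linarith
      · rw [val, val] at h1
        linarith
    rw [cst, cst, h1] at h2
    rw [eq_of_val hv w w' _ h3 (Nat.add_left_cancel h2)]

end Pool.Agent.Lib.MP_a78abf_an.EP
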