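import Pool.Agent.Lib.MP_a78abf_an.Proof
import Pool.Agent.Lib.MP_a78abf_an.EP.Word

/-! The map reads Farey words with the stated costs. -/

open Filter Topology Set OnePoint

namespace Pool.Agent.Lib.MP_a78abf_an.EP

/-- the point with side `s` and size `u` -/
noncomputable def st : Bool → ℝ → OnePoint ℝ
  | true, u => (u : OnePoint ℝ)
  | false, u => if u = 0 then ∞ else ((-1 / u : ℝ) : OnePoint ℝ)

theorem st_false {u : ℝ} (hu : u ≠ 0) : st false u = ((-1 / u : ℝ) : OnePoint ℝ) := by
  rw [st, if_neg hu]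

theorem st_zero : st false 0 = ∞ := by rw [st, if_pos rfl]

theorem st_inj (s : Bool) : Function.Injective (st s) := by
  intro u v h
  cases s
  · by_cases hu : u = 0 <;> by_cases hv : v = 0
    · rw [hu, hv]
    · rw [hu, st_zero, st_false hv] at h
      exact absurd h (infty_ne_coe _)
    · rw [hv, st_zero, st_false hu] at h
      exact absurd h (coe_ne_infty _)
    · rw [st_false hu, st_false hv, coe_eq_coe, div_eq_div_iff hu hv] at h
      linarith
  · exact coe_eq_coe.1 h

theorem st_surj (z : OnePoint ℝ) : ∃ s u, 0 ≤ u ∧ st s u = z := by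
  induction z using OnePoint.rec with
  | infty => exact ⟨false, 0, le_rfl, st_zero⟩
  | coe x =>
    rcases le_or_gt 0 x with h | h
    · exact ⟨true, x, h, rfl⟩
    · have h1 : 0 < -1 / x := div_pos_of_neg_of_neg (by norm_num) h
      refine ⟨false, -1 / x, h1.le, ?_⟩
      rw [st_false h1.ne']
      congr 1
      field_simp

theorem st_real (s : Bool) {u : ℝ} (hu : 0 < u) : ∃ y : ℝ, st s u = (y : OnePoint ℝ) := by
  cases s
  · exact ⟨_, st_false hu.ne'⟩
  · exact ⟨_, rfl⟩

section

variable {a b : ℝ} (hb0 : 0 ≤ b) (hb : b ≤ 1 / 2) (hab : 1 ≤ b - a) (hab' : -(a * b) ≤ 1)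
include hb0 hb hab hab'

omit hb0 hab' in
theorem f_tt {u : ℝ} (hu : 0 ≤ u) : cfMap a b (st true (u + 1)) = st true u := by
  rw [st, st, cf_right (by linarith) (by linarith), add_sub_cancel_right]

omit hb0 hab' in
theorem f_inv {u : ℝ} (hu : 0 ≤ u) (h : u < b) : cfMap a b (st true u) = st false u := by
  rcases hu.eq_or_lt with rfl | h0
  · rw [st, cf_zero (by linarith) h, st_zero]
  · rw [st, cf_mid (by linarith) h h0.ne', st_false h0.ne']

omit hb0 hb hab hab' in
theorem neg_lt_iff {u : ℝ} (hu : 0 < u) : -1 / u < a ↔ 0 < 1 + a * u := by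
  rw [div_lt_iff₀ hu]
  constructor <;> intro h <;> linarith

omit hb hab hab' in
theorem f_neg {u : ℝ} (hu : 0 ≤ u) (h : ¬ 0 < 1 + a * u) : cfMap a b (st false u) = st true u := by
  have h0 : 0 < u := hu.lt_of_ne fun e => h (by rw [← e]; simp)
  have h1 : -1 / u < 0 := div_neg_of_neg_of_pos (by norm_num) h0
  rw [st_false h0.ne', cf_mid (not_lt.1 (mt (neg_lt_iff h0).1 h)) (h1.trans_le hb0) h1.ne, st]
  congr 1
  field_simp

omit hb0 hb hab hab' in
theorem f_ff {u : ℝ} (hu : 0 ≤ u) (h : 0 < 1 + a * (u / (1 + u))) :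
    cfMap a b (st false (u / (1 + u))) = st false u := by
  rcases hu.eq_or_lt with rfl | h0
  · rw [zero_div, st_zero, cf_infty]
  · have h1 : 0 < u / (1 + u) := by positivity
    rw [st_false h1.ne', cf_left ((neg_lt_iff h1).2 h), st_false h0.ne']
    congr 1
    field_simp
    ring

omit hb0 hb hab hab' in
theorem f_ft {u : ℝ} (hu : 0 ≤ u) (h : 0 < 1 + a * (u + 1)) :
    cfMap a b (st false (u + 1)) = st true (u / (1 + u)) := by
  have h1 : 0 < u + 1 := by positivity
  rw [st_false h1.ne', cf_left ((neg_lt_iff h1).2 h), st]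
  congr 1
  field_simp
  ring

omit hb0 hab' in
theorem f_tf {u : ℝ} (hu : 0 ≤ u) (h : ¬ u / (1 + u) < b) :
    cfMap a b (st true (u / (1 + u))) = st false (u + 1) := by
  have h1 : 0 < u + 1 := by positivity
  have h2 : 0 ≤ u / (1 + u) := by positivity
  rw [st_false h1.ne', st, cf_right (by linarith) (not_lt.1 h)]
  congr 1
  field_simp
  ring

theorem f2 {u : ℝ} (hu : 0 ≤ u) (h : u / (1 + u) < b) :
    (cfMap a b)^[2] (st true (u / (1 + u))) = st false u := by
  have h2 : 0 ≤ u / (1 + u) := by positivity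
  have h3 : 0 < 1 + a * (u / (1 + u)) := by nlinarith
  rw [Function.iterate_succ_apply, f_inv hb hab h2 h, Function.iterate_one, f_ff hu h3]

omit hab' in
theorem f2' {u : ℝ} (hu : 0 ≤ u) (h : ¬ 0 < 1 + a * (u + 1)) :
    (cfMap a b)^[2] (st false (u + 1)) = st true u := by
  rw [Function.iterate_succ_apply, f_neg hb0 (by positivity) h, Function.iterate_one,
    f_tt hb hab hu]

omit hab' in
theorem f3 {u : ℝ} (hu : 0 ≤ u) (h : ¬ u / (1 + u) < b) :
    (cfMap a b)^[3] (st true (u / (1 + u))) = st true u := by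
  rw [Function.iterate_succ_apply, f_tf hb hab hu h]
  refine f2' hb0 hb hab hu ?_
  rw [div_lt_iff₀ (by positivity)] at h
  nlinarith

theorem sim_step {v : ℝ} (hv : 0 ≤ v) (s p : Bool) (w : List Bool) :
    (cfMap a b)^[(stp a b s p (val v (p :: w))).1] (st s (val v (p :: w))) =
      st (stp a b s p (val v (p :: w))).2 (val v w) := by
  have hu := val_nonneg hv w
  cases s <;> cases p <;> rw [stp] <;> (try split_ifs with c) <;> rw [val] at *
  · exact f_ff hu c
  · have h2 : 0 ≤ val v w / (1 + val v w) := by positivity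
    rw [Function.iterate_succ_apply, f_neg hb0 h2 c]
    refine f3 hb0 hb hab hu fun h => c ?_
    nlinarith
  · rw [Function.iterate_succ_apply, f_ft hu c]
    refine f2 hb0 hb hab hab' hu ?_
    rw [div_lt_iff₀ (by positivity)]
    nlinarith
  · exact f2' hb0 hb hab hu c
  · exact f2 hb0 hb hab hab' hu c
  · exact f3 hb0 hb hab hu c
  · exact f_tt hb hab hu

theorem sim {v : ℝ} (hv : 0 ≤ v) : ∀ (w : List Bool) (s : Bool),
    ∃ s', (cfMap a b)^[cst a b v s w] (st s (val v w)) = st s' v
  | [], s => ⟨s, by rw [cst_nil]; rfl⟩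
  | p :: w, s => by
    obtain ⟨s', h⟩ := sim hv w (stp a b s p (val v (p :: w))).2
    exact ⟨s', by rw [cst, add_comm, Function.iterate_add_apply, sim_step hb0 hb hab hab' hv, h]⟩

end

/-- every point is coded by a word of any prescribed cost, up to three -/
theorem exists_word (a b : ℝ) : ∀ (j : ℕ) (s : Bool) (u : ℝ), 0 ≤ u →
    ∃ w v, 0 ≤ v ∧ val v w = u ∧ j ≤ cst a b v s w ∧ cst a b v s w ≤ j + 3 := by
  intro j
  induction j using Nat.strong_induction_on with
  | _ j ih =>
    intro s u hu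
    rcases Nat.eq_zero_or_pos j with rfl | hj
    · exact ⟨[], u, hu, rfl, by simp, by simp [cst_nil]⟩
    obtain ⟨p, u', hu', e⟩ : ∃ p u', 0 ≤ u' ∧ ∀ v w, val v w = u' → val v (p :: w) = u := by
      rcases le_or_gt 1 u with h | h
      · exact ⟨true, u - 1, by linarith, fun v w e => by rw [val, e]; ring⟩
      · have h1 : 0 < 1 - u := by linarith
        refine ⟨false, u / (1 - u), by positivity, fun v w e => ?_⟩
        have h2 : 1 + u / (1 - u) = 1 / (1 - u) := by field_simp; ring
        rw [val, e, h2]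
        field_simp
    have hs := stp_bd (a := a) (b := b) s p u
    rcases le_or_gt j (stp a b s p u).1 with h | h
    · refine ⟨[p], u', hu', e _ _ rfl, ?_⟩
      rw [cst, cst_nil, e _ _ rfl]
      omega
    · obtain ⟨w, v, h1, h2, h3⟩ := ih (j - (stp a b s p u).1) (by omega) (stp a b s p u).2 u' hu'
      refine ⟨p :: w, v, h1, e _ _ h2, ?_⟩
      rw [cst, e _ _ h2]
      omega

end Pool.Agent.Lib.MP_a78abf_an.EP
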